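import Pool.Agent.H72.UV.Targets
import Pool.Agent.H72.UV.Basic

/-!
Module ARB of the UV project (MP_5607ba_lc).
-/

set_option autoImplicit false

open Set Filter Topology

namespace Pool.Agent.H27.UV

open Pool.Agent.H72.UV

/-- read an array with cells in `Fin (r + 1)` -/
def rd {M : Type} {k b a : ℕ} (κ : Fin k → M) (r : ℕ) : Arr k b a → M ⊕ ℕ × Rw b (r + 1) a
  | Sum.inl y => Sum.inl (κ y)
  | Sum.inr (n, Sum.inl i) => Sum.inr (n, Sum.inl i)
  | Sum.inr (n, Sum.inr (j, i)) => Sum.inr (n, Sum.inr (Fin.ofNat (r + 1) j, i))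

/-- the cell index -/
def cb {k b a : ℕ} : Arr k b a → ℕ
  | Sum.inl _ => 0
  | Sum.inr (_, Sum.inl _) => 0
  | Sum.inr (_, Sum.inr (j, _)) => j

lemma rd_inj {M : Type} {k b a : ℕ} {κ : Fin k → M} (hκ : Function.Injective κ) {r : ℕ}
    {x y : Arr k b a} (hx : cb x ≤ r) (hy : cb y ≤ r) (h : rd κ r x = rd κ r y) : x = y := by
  rcases x with x | ⟨n, i | ⟨j, i⟩⟩ <;> rcases y with y | ⟨n', i' | ⟨j', i'⟩⟩ <;>
    simp only [rd, cb, Sum.inl.injEq, Sum.inr.injEq, Prod.mk.injEq, reduceCtorEq, and_false,
      Fin.ext_iff, Fin.ofNat] at h hx hy ⊢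
  · rw [hκ h]
  · exact h
  · rw [Nat.mod_eq_of_lt (Nat.lt_succ_of_le hx), Nat.mod_eq_of_lt (Nat.lt_succ_of_le hy)] at h
    exact h

lemma ext_perm {N : ℕ} (S : Set (Fin N)) (f : Fin N → Fin N) (hf : InjOn f S) :
    ∃ σ : Fin N → Fin N, Function.Injective σ ∧ ∀ i ∈ S, σ i = f i := by
  classical
  obtain ⟨g, hg⟩ := Finset.exists_equiv_extend_of_card_eq (α := Fin N) (β := Fin N)
    (t := Finset.univ) (by simp) (s := S.toFinset) (f := f) (Finset.subset_univ _)
    (by rwa [Set.coe_toFinset])
  refine ⟨fun i => (g i).1, fun i j h => g.injective (Subtype.ext h), fun i hi => ?_⟩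
  exact hg i (by simpa using hi)

theorem arb (hGEN : T_GEN) : T_ARB := by
  classical
  rintro M C c m a hfin har hcomm ⟨k, b, κ, W, hκ, hfree, hcompat, l₀, z, hown, hcross⟩
  obtain ⟨v₀, hv₀⟩ := har
  -- transfer of almost everywhere statements
  have trans : ∀ (r r' : ℕ) (ρ : Fin r → Fin r'), Function.Injective ρ →
      ∀ (l : List (M ⊕ Rw b r a)) (S : Set C),
      (∀ᶠ u in (W r : Filter (Rw b r a → M)), c (l.map (Sum.elim id u)) ∈ S) →
      ∀ᶠ u' in (W r' : Filter (Rw b r' a → M)),
        c (l.map (Sum.elim id (u' ∘ Sum.map id (Prod.map ρ id)))) ∈ S := by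
    intro r r' ρ hρ l S h
    obtain ⟨u, hu, hu'⟩ := (h.and (hcompat r r' ρ hρ l)).exists
    filter_upwards [hu'] with u' hu'
    rw [← hu']
    exact hu
  -- the structures given by GEN
  have hG := fun r : ℕ => hGEN M C (Rw b (r + 1) a) inferInstance c m hfin ⟨v₀, hv₀⟩ hcomm
    (W (r + 1)) (hfree (r + 1))
  choose e e1 e2 e3 e4 e5 using hG
  have erange : ∀ r l, e r l ∈ range c := by
    intro r l
    obtain ⟨f, -, hf⟩ := e2 r l.toFinset
    exact ⟨_, hf l fun x hx => List.mem_toFinset.2 hx⟩
  have elong : ∀ r (l : List (M ⊕ ℕ × Rw b (r + 1) a)), m < l.length → e r l = v₀ := by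
    intro r l hl
    obtain ⟨f, -, hf⟩ := e2 r l.toFinset
    rw [← hf l fun x hx => List.mem_toFinset.2 hx]
    exact hv₀ _ (by simpa using hl)
  -- the array
  have hval : ∀ l : List (Arr k b a), ∃ v,
      ∀ᶠ r in (hyperfilter ℕ : Filter ℕ), e r (l.map (rd κ r)) = v := by
    intro l
    obtain ⟨v, -, hv⟩ := exists_ae (hyperfilter ℕ) (fun r => e r (l.map (rd κ r)))
      (hfin.subset (by
        rintro _ ⟨r, rfl⟩
        exact erange r _))
    exact ⟨v, hv⟩
  choose E hE using hval
  have hlarge : ∀ n : ℕ, ∀ᶠ r in (hyperfilter ℕ : Filter ℕ), n ≤ r := by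
    intro n
    have : ∀ᶠ r in (atTop : Filter ℕ), n ≤ r := eventually_ge_atTop n
    exact Nat.hyperfilter_le_atTop this
  refine ⟨k, b, E, ?_, ⟨?_, ?_⟩, l₀, ?_⟩
  · -- Below
    intro F
    have h1 : ∀ᶠ r in (hyperfilter ℕ : Filter ℕ), ∀ l ∈ {l : List F | l.length ≤ m},
        e r ((l.map Subtype.val).map (rd κ r)) = E (l.map Subtype.val) := by
      rw [Filter.eventually_all_finite (List.finite_length_le _ m)]
      exact fun l _ => hE _
    obtain ⟨r, hr1, hr2⟩ := (h1.and (hlarge (F.sup cb))).exists
    have hle : ∀ x ∈ F, cb x ≤ r := fun x hx => (Finset.le_sup (f := cb) hx).trans hr2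
    obtain ⟨f, hf1, hf2⟩ := e2 r (F.image (rd κ r))
    refine ⟨f ∘ rd κ r, ?_, ?_⟩
    · intro x hx y hy h
      exact rd_inj hκ (hle x hx) (hle y hy) (hf1
        (Finset.mem_coe.2 (Finset.mem_image_of_mem _ hx))
        (Finset.mem_coe.2 (Finset.mem_image_of_mem _ hy)) h)
    · intro l hl
      have h2 : c (l.map (f ∘ rd κ r)) = e r (l.map (rd κ r)) := by
        rw [← List.map_map, hf2]
        intro x hx
        obtain ⟨y, hy, rfl⟩ := List.mem_map.1 hx
        exact Finset.mem_image_of_mem _ (hl y hy)
      rw [h2]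
      by_cases hm : l.length ≤ m
      · obtain ⟨l', rfl⟩ : ∃ l' : List F, l'.map Subtype.val = l := by
          refine ⟨l.attach.map fun x => ⟨x.1, hl x.1 x.2⟩, ?_⟩
          rw [List.map_map]
          conv_rhs => rw [← List.attach_map_subtype_val l]
          rfl
        exact hr1 l' (by simpa using hm)
      · rw [elong r _ (by simpa using hm)]
        obtain ⟨r', hr'⟩ := (hE l).exists
        rw [← hr', elong r' _ (by simpa using hm)]
  · -- rows
    intro l f hf
    obtain ⟨r, hr1, hr2⟩ := ((hE (l.map (rowMap f))).and (hE l)).exists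
    rw [← hr1, ← hr2, ← e4 r (l.map (rd κ r)) f hf, List.map_map, List.map_map]
    congr 2
    funext x
    rcases x with x | ⟨n, i | ⟨j, i⟩⟩ <;> rfl
  · -- cells
    intro l g hg
    obtain ⟨r, ⟨hr1, hr2⟩, hr3⟩ := (((hE (l.map (cellMap g))).and (hE l)).and (hlarge
      (max (l.toFinset.sup cb) (l.toFinset.sup fun x => cb (cellMap g x))))).exists
    have hle : ∀ x ∈ l, cb x ≤ r := fun x hx =>
      (Finset.le_sup (f := cb) (List.mem_toFinset.2 hx)).trans ((le_max_left _ _).trans hr3)
    have hle' : ∀ x ∈ l, cb (cellMap g x) ≤ r := fun x hx =>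
      (Finset.le_sup (f := fun x => cb (cellMap g x)) (List.mem_toFinset.2 hx)).trans
        ((le_max_right _ _).trans hr3)
    have hσ : ∀ n : ℕ, ∃ σ : Fin (r + 1) → Fin (r + 1), Function.Injective σ ∧
        ∀ j ∈ {j : Fin (r + 1) | ∃ i : Fin a, Sum.inr (n, Sum.inr (j.1, i)) ∈ l},
          σ j = Fin.ofNat (r + 1) (g n j) := by
      intro n
      refine ext_perm _ _ ?_
      rintro j ⟨i, hi⟩ j' ⟨i', hi'⟩ h
      have h1 := hle' _ hi
      have h2 := hle' _ hi'
      simp only [cellMap, cb] at h1 h2
      simp only [Fin.ext_iff, Fin.ofNat] at h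
      rw [Nat.mod_eq_of_lt (Nat.lt_succ_of_le h1), Nat.mod_eq_of_lt (Nat.lt_succ_of_le h2)] at h
      exact Fin.ext (hg n h)
    choose σ hσ1 hσ2 using hσ
    rw [← hr1, ← hr2, ← e5 r (fun n => Sum.map id (Prod.map (σ n) id)) ?_ ?_ (l.map (rd κ r)),
      List.map_map, List.map_map]
    · congr 1
      apply List.map_congr_left
      intro x hx
      have hx' := hle x hx
      rcases x with x | ⟨n, i | ⟨j, i⟩⟩
      · rfl
      · rfl
      · simp only [cb] at hx'
        have h1 : Fin.ofNat (r + 1) j = (⟨j, Nat.lt_succ_of_le hx'⟩ : Fin (r + 1)) :=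
          Fin.ext (Nat.mod_eq_of_lt (Nat.lt_succ_of_le hx'))
        have h2 := hσ2 n ⟨j, Nat.lt_succ_of_le hx'⟩ ⟨i, hx⟩
        simp only [Function.comp_apply, rd, cellMap, Sum.map_inr, Prod.map_apply, id_eq]
        rw [h1, h2]
    · intro n
      exact Sum.map_injective.2 ⟨Function.injective_id,
        Function.Injective.prodMap (hσ1 n) Function.injective_id⟩
    · intro n l'
      obtain ⟨w, -, hw⟩ := exists_ae (W (r + 1)) (fun u => c (l'.map (Sum.elim id u)))
        (hfin.subset (by
          rintro _ ⟨u, rfl⟩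
          exact mem_range_self _))
      filter_upwards [hw, trans (r + 1) (r + 1) (σ n) (hσ1 n) l' {w} hw] with u hu hu'
      rw [hu]
      exact hu'
  · -- the difference
    have h0 : E (l₀.map (own 0)) ≠ z := by
      obtain ⟨r, hr⟩ := (hE (l₀.map (own 0))).exists
      rw [← hr]
      have h1 := e3 r ((l₀.map (own 0)).map (rd κ r)) 0
      have h2 := trans 1 (r + 1) (fun _ => 0) (fun i j _ => Subsingleton.elim i j)
        (l₀.map fun x => match x with
          | Sum.inl y => Sum.inl (κ y)
          | Sum.inr (Sum.inl i) => Sum.inr (Sum.inl i)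
          | Sum.inr (Sum.inr i) => Sum.inr (Sum.inr (0, i))) {z}ᶜ (by
          filter_upwards [hown] with u hu
          rw [List.map_map]
          intro h
          apply hu
          rw [← h]
          congr 2
          funext x
          rcases x with x | x | x <;> rfl)
      obtain ⟨u, hu1, hu2⟩ := (h1.and h2).exists
      intro hz
      apply hu2
      rw [← hz, ← hu1, ← e1 r, List.map_map, List.map_map, List.map_map, List.map_map]
      simp only [mem_singleton_iff]
      congr 2
      funext x
      rcases x with x | x | x <;> rfl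
    have h1 : E (l₀.map (own 1)) = z := by
      obtain ⟨r, hr⟩ := (hE (l₀.map (own 1))).exists
      rw [← hr]
      -- transfer of the cross value
      have hA : ∀ᶠ u in (W 1 : Filter (Rw b 1 a → M)),
          ∀ᶠ u' in (W (r + 1) : Filter (Rw b (r + 1) a → M)), c (l₀.map (Sum.elim κ (Sum.elim
            (fun i => u (Sum.inl i)) (fun i => u' (Sum.inr (0, i)))))) = z := by
        filter_upwards [hcross] with u hu
        have h2 := trans 1 (r + 1) (fun _ => 0) (fun i j _ => Subsingleton.elim i j)
          (l₀.map fun x => match x with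
            | Sum.inl y => Sum.inl (κ y)
            | Sum.inr (Sum.inl i) => Sum.inl (u (Sum.inl i))
            | Sum.inr (Sum.inr i) => Sum.inr (Sum.inr (0, i))) {z} (by
            filter_upwards [hu] with u' hu'
            rw [List.map_map, mem_singleton_iff, ← hu']
            congr 2
            funext x
            rcases x with x | x | x <;> rfl)
        filter_upwards [h2] with u' hu'
        rw [List.map_map, mem_singleton_iff] at hu'
        rw [← hu']
        congr 2
        funext x
        rcases x with x | x | x <;> rfl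
      have hB : ∀ᶠ u' in (W (r + 1) : Filter (Rw b (r + 1) a → M)),
          ∀ᶠ u in (W 1 : Filter (Rw b 1 a → M)), c (l₀.map (Sum.elim κ (Sum.elim
            (fun i => u (Sum.inl i)) (fun i => u' (Sum.inr (0, i)))))) = z := by
        have h2 := (hcomm.iff (hfree 1) (hfree (r + 1)) (l₀.map fun x => match x with
            | Sum.inl y => Sum.inl (κ y)
            | Sum.inr (Sum.inl i) => Sum.inr (Sum.inl (Sum.inl i))
            | Sum.inr (Sum.inr i) => Sum.inr (Sum.inr (Sum.inr (0, i)))) z).1 (by
            filter_upwards [hA] with u hu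
            filter_upwards [hu] with u' hu'
            rw [List.map_map, ← hu']
            congr 2
            funext x
            rcases x with x | x | x <;> rfl)
        filter_upwards [h2] with u' hu'
        filter_upwards [hu'] with u hu
        rw [List.map_map] at hu
        rw [← hu]
        congr 2
        funext x
        rcases x with x | x | x <;> rfl
      have hC : ∀ᶠ u' in (W (r + 1) : Filter (Rw b (r + 1) a → M)),
          ∀ᶠ u in (W (r + 1) : Filter (Rw b (r + 1) a → M)), c (l₀.map (Sum.elim κ (Sum.elim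
            (fun i => u (Sum.inl i)) (fun i => u' (Sum.inr (0, i)))))) = z := by
        filter_upwards [hB] with u' hu'
        have h2 := trans 1 (r + 1) (fun _ => 0) (fun i j _ => Subsingleton.elim i j)
          (l₀.map fun x => match x with
            | Sum.inl y => Sum.inl (κ y)
            | Sum.inr (Sum.inl i) => Sum.inr (Sum.inl i)
            | Sum.inr (Sum.inr i) => Sum.inl (u' (Sum.inr (0, i)))) {z} (by
            filter_upwards [hu'] with u hu
            rw [List.map_map, mem_singleton_iff, ← hu]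
            congr 2
            funext x
            rcases x with x | x | x <;> rfl)
        filter_upwards [h2] with u hu
        rw [List.map_map, mem_singleton_iff] at hu
        rw [← hu]
        congr 2
        funext x
        rcases x with x | x | x <;> rfl
      obtain ⟨u', hu1, hu2⟩ := ((e3 r ((l₀.map (own 1)).map (rd κ r)) 1).and hC).exists
      obtain ⟨u, hu3, hu4⟩ := ((e3 r (((l₀.map (own 1)).map (rd κ r)).map (subst 1 u')) 0).and
        hu2).exists
      rw [← hu1, ← hu3, ← hu4, ← e1 r, List.map_map, List.map_map, List.map_map, List.map_map]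
      congr 2
      funext x
      rcases x with x | x | x <;> rfl
    rw [h1]
    exact h0

end Pool.Agent.H27.UV
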