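import Pool.Agent.H72.UV.Targets
import Pool.Agent.H72.UV.Basic

/-!
Module LIFT of the UV project (MP_5607ba_lc).
-/

set_option autoImplicit false

open Set Filter Topology

namespace Pool.Agent.H27.UV

open Pool.Agent.H72.UV

/-- the values of `c` on lists obtained from a fixed list form a finite set -/
lemma finite_vals {M A C : Type} {c : Str M C} (hc : FinTp c) (l : List A) :
    (range fun f : A → M => c (l.map f)).Finite := by
  refine ((hc l.length).image fun t => t (List.finRange l.length)).subset ?_
  rintro _ ⟨f, rfl⟩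
  refine ⟨_, ⟨fun i => f (l.get i), rfl⟩, ?_⟩
  have : (List.finRange l.length).map (fun i => f (l.get i)) = l.map f := by
    have h2 : (fun i => f (l.get i)) = f ∘ l.get := rfl
    rw [h2, ← List.map_map, List.map_get_finRange]
  simp only [this]

theorem lift : T_LIFT := by
  classical
  intro M A C _ c m e hc he
  choose f hf hfe using he
  obtain ⟨U, hU⟩ : ∃ U : Ultrafilter (Finset A), (U : Filter (Finset A)) ≤ atTop :=
    ⟨Ultrafilter.of atTop, Ultrafilter.of_le atTop⟩
  have hsup : ∀ F : Finset A, ∀ᶠ G in (U : Filter (Finset A)), F ⊆ G := by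
    intro F
    exact hU (eventually_ge_atTop F)
  have hval : ∀ l : List A, ∃ v, ∀ᶠ G in (U : Filter (Finset A)), c (l.map (f G)) = v := by
    intro l
    obtain ⟨v, -, hv⟩ := exists_ae U (fun G => c (l.map (f G))) ((finite_vals hc l).subset (by
      rintro _ ⟨G, rfl⟩
      exact ⟨f G, rfl⟩))
    exact ⟨v, hv⟩
  choose e' he' using hval
  refine ⟨e', ?_, ?_⟩
  · intro F
    -- the type of the enumeration of `F`
    obtain ⟨n, g⟩ : ∃ n : ℕ, Nonempty (F ≃ Fin n) := ⟨F.card, ⟨F.equivFin⟩⟩
    obtain ⟨g⟩ := g
    obtain ⟨T, -, hT⟩ := exists_ae U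
      (fun G => fun l : List (Fin n) => c (l.map fun i => f G (g.symm i)))
      ((hc n).subset (by
        rintro _ ⟨G, rfl⟩
        exact ⟨fun i => f G (g.symm i), rfl⟩))
    obtain ⟨G, hG1, hG2⟩ := (hT.and (hsup F)).exists
    refine ⟨f G, (hf G).mono (by exact_mod_cast hG2), ?_⟩
    intro l hl
    obtain ⟨l', hl'⟩ : ∃ l' : List (Fin n), l'.map (fun i => ((g.symm i : F) : A)) = l := by
      refine ⟨l.attach.map fun x => g ⟨x.1, hl x.1 x.2⟩, ?_⟩
      rw [List.map_map]
      conv_rhs => rw [← List.attach_map_subtype_val l]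
      apply List.map_congr_left
      intro x _
      simp
    have key : ∀ G' : Finset A, c (l.map (f G')) = c (l'.map fun i => f G' (g.symm i)) := by
      intro G'
      rw [← hl', List.map_map]
      rfl
    have h1 : ∀ᶠ G' in (U : Filter (Finset A)), c (l.map (f G')) = T l' := by
      filter_upwards [hT] with G' hG'
      rw [key G']
      exact congrFun hG' l'
    rw [ae_unique (he' l) h1, key G]
    exact congrFun hG1 l'
  · funext l
    obtain ⟨G, hG1, hG2⟩ := ((he' l).and (hsup l.toFinset)).exists
    have h1 := hfe G l (fun x hx => hG2 (List.mem_toFinset.2 hx))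
    by_cases hl : l.length ≤ m
    · rw [tr_of_le (by simpa using hl)] at h1
      rw [tr_of_le hl, ← h1, hG1]
    · rw [tr_of_lt (by simpa using not_le.1 hl)] at h1
      rw [tr_of_lt (not_le.1 hl), h1]

end Pool.Agent.H27.UV
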