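import Pool.Agent.H72.UV.Targets
import Pool.Agent.H72.UV.Basic

/-!
Module ROW of the UV project (MP_5607ba_lc).
-/

set_option autoImplicit false

open Set Filter Topology

namespace Pool.Agent.H27.UV

open Pool.Agent.H72.UV

section pow

variable {M C : Type} {a : ℕ}

/-- iterated power of an ultrafilter -/
noncomputable def pw (U : Ultrafilter (Fin a → M)) : ∀ r : ℕ, Ultrafilter (Fin r → Fin a → M)
  | 0 => pure (fun j => j.elim0)
  | r + 1 => (prodU U (pw U r)).map fun p => Fin.cons (α := fun _ => Fin a → M) p.1 p.2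

lemma eventually_pw_succ {U : Ultrafilter (Fin a → M)} {r : ℕ}
    {P : (Fin (r + 1) → Fin a → M) → Prop} :
    (∀ᶠ w in (pw U (r + 1) : Filter (Fin (r + 1) → Fin a → M)), P w) ↔
      ∀ᶠ u in (U : Filter (Fin a → M)), ∀ᶠ w in (pw U r : Filter (Fin r → Fin a → M)),
        P (Fin.cons (α := fun _ => Fin a → M) u w) := Iff.rfl

lemma pw_avoid {U : Ultrafilter (Fin a → M)} (hU : Free U) : ∀ (r : ℕ) (j : Fin r) (i : Fin a)
    (y : M), ∀ᶠ w in (pw U r : Filter (Fin r → Fin a → M)), w j i ≠ y := by
  intro r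
  induction r with
  | zero => exact fun j => j.elim0
  | succ r ih =>
    intro j i y
    rw [eventually_pw_succ]
    refine Fin.cases ?_ (fun j => ?_) j
    · filter_upwards [hU.2 i y] with u hu
      exact Eventually.of_forall fun w => by simpa using hu
    · refine Eventually.of_forall fun u => ?_
      filter_upwards [ih j i y] with w hw
      simpa using hw

lemma pw_ne {U : Ultrafilter (Fin a → M)} (hU : Free U) : ∀ (r : ℕ) (j j' : Fin r) (i i' : Fin a),
    (j, i) ≠ (j', i') → ∀ᶠ w in (pw U r : Filter (Fin r → Fin a → M)), w j i ≠ w j' i' := by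
  intro r
  induction r with
  | zero => exact fun j => j.elim0
  | succ r ih =>
    intro j j' i i' h
    rw [eventually_pw_succ]
    revert h
    refine Fin.cases ?_ (fun j => ?_) j
    · refine Fin.cases ?_ (fun j' => ?_) j'
      · intro h
        filter_upwards [hU.1 i i' (fun h' => h (by rw [h']))] with u hu
        exact Eventually.of_forall fun w => by simpa using hu
      · intro _
        refine Eventually.of_forall fun u => ?_
        filter_upwards [pw_avoid hU r j' i' (u i)] with w hw
        simpa using hw.symm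
    · refine Fin.cases ?_ (fun j' => ?_) j'
      · intro _
        refine Eventually.of_forall fun u => ?_
        filter_upwards [pw_avoid hU r j i (u i')] with w hw
        simpa using hw
      · intro h
        refine Eventually.of_forall fun u => ?_
        filter_upwards [ih j j' i i' (fun h' => h (by
          rw [Prod.mk.injEq] at h' ⊢
          exact ⟨by rw [h'.1], h'.2⟩))] with w hw
        simpa using hw

lemma pw_val {c : Str M C} {U : Ultrafilter (Fin a → M)} {e : Str (M ⊕ ℕ × Fin a) C}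
    (h1 : ∀ l : List M, e (l.map Sum.inl) = c l)
    (h3 : ∀ (l : List (M ⊕ ℕ × Fin a)) (n : ℕ), ∀ᶠ u in (U : Filter (Fin a → M)),
      e (l.map (subst n u)) = e l) :
    ∀ (r s : ℕ) (l : List (M ⊕ Fin r × Fin a)),
      ∀ᶠ w in (pw U r : Filter (Fin r → Fin a → M)),
        c (l.map (Sum.elim id fun x => w x.1 x.2)) =
          e (l.map (Sum.map id (Prod.map (fun j : Fin r => s + j.1) id))) := by
  intro r
  induction r with
  | zero =>
    intro s l
    refine Eventually.of_forall fun w => ?_
    rw [← h1, List.map_map]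
    congr 2
    funext x
    rcases x with x | ⟨j, i⟩
    · rfl
    · exact j.elim0
  | succ r ih =>
    intro s l
    rw [eventually_pw_succ]
    filter_upwards [h3 (l.map (Sum.map id (Prod.map (fun j : Fin (r + 1) => s + j.1) id))) s]
      with u hu
    filter_upwards [ih (s + 1) (l.map (fun x => match x with
      | Sum.inl y => Sum.inl y
      | Sum.inr (j, i) => Fin.cases (motive := fun _ => M ⊕ Fin r × Fin a) (Sum.inl (u i))
          (fun j' => Sum.inr (j', i)) j))] with w hw
    rw [← hu]
    rw [List.map_map, List.map_map] at hw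
    rw [List.map_map]
    refine Eq.trans (congrArg c (congrArg (fun g => l.map g) ?_)) (hw.trans
      (congrArg e (congrArg (fun g => l.map g) ?_)))
    · funext x
      rcases x with x | ⟨j, i⟩
      · rfl
      · refine Fin.cases ?_ (fun j => ?_) j
        · rfl
        · rfl
    · funext x
      rcases x with x | ⟨j, i⟩
      · rfl
      · refine Fin.cases ?_ (fun j => ?_) j
        · simp [subst]
        · simp only [Function.comp_apply, Sum.map_inr, Prod.map_apply, id_eq, Fin.val_succ,
            Fin.cases_succ, subst]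
          rw [if_neg (by omega)]
          congr 2
          omega

end pow

/-- classification of finitely many sequences modulo an ultrafilter -/
lemma classify {M : Type} {a d : ℕ} (V : Ultrafilter ℕ) (X : Fin d → ℕ → M ⊕ Fin a) :
    ∃ (k b : ℕ) (κ : Fin k → M) (w : ℕ → Fin b → M) (y : Fin d → Fin k ⊕ (Fin b ⊕ Fin a)),
      Function.Injective κ ∧ (∀ i y, ∀ᶠ n in (V : Filter ℕ), w n i ≠ y) ∧
      (∀ i i', i ≠ i' → ∀ᶠ n in (V : Filter ℕ), w n i ≠ w n i') ∧
      ∀ j, ∀ᶠ n in (V : Filter ℕ), X j n =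
        Sum.elim (fun i => Sum.inl (κ i)) (Sum.elim (fun i => Sum.inl (w n i)) Sum.inr) (y j) := by
  classical
  obtain ⟨G, hG⟩ : ∃ G : Fin d → Germ (V : Filter ℕ) (M ⊕ Fin a),
      ∀ j j', G j = G j' ↔ ∀ᶠ n in (V : Filter ℕ), X j n = X j' n :=
    ⟨fun j => (X j : Germ (V : Filter ℕ) (M ⊕ Fin a)), fun j j' => Germ.coe_eq⟩
  -- constants
  have hKfin : Finite {y : M // ∃ j, ∀ᶠ n in (V : Filter ℕ), X j n = Sum.inl y} := by
    have : ∀ y : {y : M // ∃ j, ∀ᶠ n in (V : Filter ℕ), X j n = Sum.inl y},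
      ∃ j, ∀ᶠ n in (V : Filter ℕ), X j n = Sum.inl y.1 := fun y => y.2
    choose f hf using this
    refine Finite.of_injective f ?_
    intro y y' h
    obtain ⟨n, hn, hn'⟩ := ((hf y).and (hf y')).exists
    rw [h, hn'] at hn
    exact Subtype.ext (Sum.inl.inj hn).symm
  obtain ⟨k, ⟨eK⟩⟩ := hKfin.exists_equiv_fin
  -- nonconstant classes
  have hBfin : Finite {g : Germ (V : Filter ℕ) (M ⊕ Fin a) // ∃ j, G j = g ∧
      ∀ y, ¬ ∀ᶠ n in (V : Filter ℕ), X j n = y} := by
    have : ∀ g : {g : Germ (V : Filter ℕ) (M ⊕ Fin a) // ∃ j, G j = g ∧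
      ∀ y, ¬ ∀ᶠ n in (V : Filter ℕ), X j n = y}, ∃ j, G j = g.1 := fun g => by
      obtain ⟨j, hj, -⟩ := g.2
      exact ⟨j, hj⟩
    choose f hf using this
    exact Finite.of_injective f fun g g' h => Subtype.ext (by rw [← hf g, ← hf g', h])
  obtain ⟨b, ⟨eB⟩⟩ := hBfin.exists_equiv_fin
  have hJ : ∀ i : Fin b, ∃ j, G j = (eB.symm i).1 ∧ ∀ y, ¬ ∀ᶠ n in (V : Filter ℕ), X j n = y :=
    fun i => (eB.symm i).2
  choose J hJ1 hJ2 using hJ
  -- nonconstant implies almost everywhere in `M`
  have hM : ∀ j, (∀ y, ¬ ∀ᶠ n in (V : Filter ℕ), X j n = y) →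
      ∃ f : ℕ → M, ∀ᶠ n in (V : Filter ℕ), X j n = Sum.inl (f n) := by
    intro j hj
    have h1 : ∀ᶠ n in (V : Filter ℕ), ∀ i : Fin a, X j n ≠ Sum.inr i := by
      rw [eventually_all]
      exact fun i => Ultrafilter.eventually_not.2 (hj _)
    have h2 : ∀ᶠ n in (V : Filter ℕ), ∃ y, X j n = Sum.inl y := by
      filter_upwards [h1] with n hn
      rcases h : X j n with y | i
      · exact ⟨y, rfl⟩
      · exact absurd h (hn i)
    obtain ⟨n₀, y₀, -⟩ := h2.exists
    refine ⟨fun n => (X j n).elim id fun _ => y₀, ?_⟩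
    filter_upwards [h2] with n hn
    obtain ⟨y, hy⟩ := hn
    rw [hy]
    rfl
  choose f hf using fun i => hM (J i) (hJ2 i)
  have hy : ∀ j, ∃ y : Fin k ⊕ (Fin b ⊕ Fin a), ∀ᶠ n in (V : Filter ℕ), X j n =
      Sum.elim (fun i => Sum.inl (eK.symm i).1)
        (Sum.elim (fun i => Sum.inl (f i n)) Sum.inr) y := by
    intro j
    by_cases hj : ∀ y, ¬ ∀ᶠ n in (V : Filter ℕ), X j n = y
    · refine ⟨Sum.inr (Sum.inl (eB ⟨G j, j, rfl, hj⟩)), ?_⟩
      have h1 := hJ1 (eB ⟨G j, j, rfl, hj⟩)
      rw [Equiv.symm_apply_apply, hG] at h1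
      filter_upwards [h1, hf (eB ⟨G j, j, rfl, hj⟩)] with n h2 h3
      rw [← h2, h3]
      rfl
    · push Not at hj
      obtain ⟨y | i, hy⟩ := hj
      · refine ⟨Sum.inl (eK ⟨y, j, hy⟩), ?_⟩
        filter_upwards [hy] with n hn
        rw [hn]
        simp
      · exact ⟨Sum.inr (Sum.inr i), hy⟩
  choose y hy using hy
  refine ⟨k, b, fun i => (eK.symm i).1, fun n i => f i n, y, ?_, ?_, ?_, hy⟩
  · intro i i' h
    exact eK.symm.injective (Subtype.ext h)
  · intro i y
    rw [Ultrafilter.eventually_not]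
    intro h
    refine hJ2 i (Sum.inl y) ?_
    filter_upwards [h, hf i] with n h1 h2
    rw [h2, h1]
  · intro i i' hii
    rw [Ultrafilter.eventually_not]
    intro h
    apply hii
    apply eB.symm.injective
    apply Subtype.ext
    rw [← hJ1 i, ← hJ1 i', hG]
    filter_upwards [h, hf i, hf i'] with n h1 h2 h3
    rw [h2, h3, h1]

/-- extension of injections to the natural numbers -/
lemma ext_inj {r r' : ℕ} (ρ : Fin r → Fin r') (hρ : Function.Injective ρ) :
    ∃ f : ℕ → ℕ, Function.Injective f ∧ ∀ j : Fin r, f j.1 = (ρ j).1 := by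
  refine ⟨fun n => if h : n < r then (ρ ⟨n, h⟩).1 else r' + n, ?_, ?_⟩
  · intro n n' h
    dsimp only at h
    split_ifs at h with h1 h2 h2
    · have := hρ (Fin.ext h)
      simpa using this
    · have := (ρ ⟨n, h1⟩).2
      omega
    · have := (ρ ⟨n', h2⟩).2
      omega
    · omega
  · intro j
    simp

theorem row (hGEN : T_GEN) : T_ROW := by
  classical
  intro M C c m hfin har hcomm hlim
  have har' := har
  obtain ⟨v₀, hv₀⟩ := har
  -- the data
  obtain ⟨a, U, hU, hne⟩ : ∃ (a : ℕ) (U : ℕ → Ultrafilter (Fin a → M)), (∀ n, Free (U n)) ∧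
      ∀ i j, i ≠ j → ¬ LEq c univ (U i) (U j) := by
    simp only [FinLim, not_forall, not_not] at hlim
    obtain ⟨ι, hι, U, hU, hne⟩ := hlim
    obtain ⟨a, ⟨eι⟩⟩ := hι.exists_equiv_fin
    refine ⟨a, fun n => (U n).map fun u => u ∘ eι.symm, fun n => (hU n).comp eι.symm.injective,
      fun i j hij h => hne i j hij ?_⟩
    intro l _
    have h1 := h (l.map (Sum.map id eι)) (fun _ _ => mem_univ _)
    rw [Pool.Agent.H72.UV.eventually_map] at h1
    filter_upwards [h1] with u hu
    rw [Pool.Agent.H72.UV.eventually_map] at hu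
    filter_upwards [hu] with v hv
    rw [List.map_map, List.map_map] at hv
    have e1 : ∀ u : ι → M, (Sum.elim id (u ∘ eι.symm)) ∘ (Sum.map id eι) = Sum.elim id u := by
      intro u
      funext x
      rcases x with x | x <;> simp
    rw [e1, e1] at hv
    exact hv
  have hae : ∀ (n : ℕ) (l : List (M ⊕ Fin a)), ∃ v, v ∈ range c ∧
      ∀ᶠ u in (U n : Filter (Fin a → M)), c (l.map (Sum.elim id u)) = v := by
    intro n l
    obtain ⟨v, hv, h⟩ := exists_ae (U n) (fun u => c (l.map (Sum.elim id u)))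
      (hfin.subset (by rintro _ ⟨u, rfl⟩; exact mem_range_self _))
    obtain ⟨u, hu⟩ := hv
    exact ⟨v, ⟨_, hu⟩, h⟩
  choose lam hlam1 hlam2 using hae
  obtain ⟨V, hV⟩ : ∃ V : Ultrafilter ℕ, V = hyperfilter ℕ := ⟨_, rfl⟩
  have hinf : ∀ l : List (M ⊕ Fin a), ∃ v, v ∈ range c ∧ ∀ᶠ n in (V : Filter ℕ), lam n l = v := by
    intro l
    obtain ⟨v, hv, h⟩ := exists_ae V (fun n => lam n l)
      (hfin.subset (by rintro _ ⟨n, rfl⟩; exact hlam1 n l))
    obtain ⟨n, rfl⟩ := hv
    exact ⟨_, hlam1 n l, h⟩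
  choose lim hlim1 hlim2 using hinf
  -- almost all `lam n` differ from `lim`
  have hdiff : ∀ᶠ n in (V : Filter ℕ), ∃ l, lam n l ≠ lim l := by
    rw [← Ultrafilter.frequently_iff_eventually]
    by_contra h
    rw [not_frequently] at h
    obtain ⟨n, hn⟩ := h.exists
    have h2 : ∀ᶠ n' in (V : Filter ℕ), n' ≠ n := by
      rw [hV]
      exact Nat.hyperfilter_le_atTop ((eventually_gt_atTop n).mono fun n' h => h.ne')
    obtain ⟨n', hn', hnn⟩ := (h.and h2).exists
    push Not at hn hn'
    refine hne n' n hnn ?_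
    intro l _
    filter_upwards [hlam2 n' l] with u hu
    filter_upwards [hlam2 n l] with v hv
    rw [hu, hv, hn, hn']
  have hl : ∀ n, ∃ l : List (M ⊕ Fin a), (∃ l, lam n l ≠ lim l) → lam n l ≠ lim l := by
    intro n
    by_cases h : ∃ l, lam n l ≠ lim l
    · exact ⟨h.choose, fun _ => h.choose_spec⟩
    · exact ⟨[], fun h' => absurd h' h⟩
  choose L hL using hl
  have hL' : ∀ᶠ n in (V : Filter ℕ), lam n (L n) ≠ lim (L n) := hdiff.mono fun n hn => hL n hn
  have hlen : ∀ᶠ n in (V : Filter ℕ), (L n).length ≤ m := by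
    filter_upwards [hL'] with n hn
    by_contra hm
    apply hn
    have h1 : ∀ n', lam n' (L n) = v₀ := by
      intro n'
      obtain ⟨u, hu⟩ := (hlam2 n' (L n)).exists
      rw [← hu]
      exact hv₀ _ (by simpa using hm)
    obtain ⟨n', hn'⟩ := (hlim2 (L n)).exists
    rw [h1, ← hn', h1]
  obtain ⟨d, hd⟩ : ∃ d, ∀ᶠ n in (V : Filter ℕ), (L n).length = d := by
    obtain ⟨d, -, hd⟩ := exists_ae V (fun n => min (L n).length (m + 1))
      ((Set.finite_Iic (m + 1)).subset (by rintro _ ⟨n, rfl⟩; exact mem_Iic.2 (min_le_right _ _)))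
    refine ⟨d, ?_⟩
    filter_upwards [hd, hlen] with n h1 h2
    omega
  obtain ⟨z, -, hz⟩ := exists_ae V (fun n => lim (L n))
    (hfin.subset (by rintro _ ⟨n, rfl⟩; exact hlim1 (L n)))
  obtain ⟨x₀⟩ : Nonempty (Fin d → M ⊕ Fin a) := by
    obtain ⟨n, hn⟩ := hd.exists
    exact ⟨fun j => (L n).get (Fin.cast hn.symm j)⟩
  have hX : ∀ n, ∃ x : Fin d → M ⊕ Fin a, (L n).length = d → L n = List.ofFn x := by
    intro n
    by_cases h : (L n).length = d
    · refine ⟨fun j => (L n).get (Fin.cast h.symm j), fun _ => ?_⟩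
      subst h
      simp
    · exact ⟨x₀, fun h' => absurd h' h⟩
  choose X hX using hX
  obtain ⟨k, b, κ, w, y, hκ, hw1, hw2, hy⟩ := classify V (fun j n => X n j)
  -- the structures of GEN
  have hG := fun n : ℕ => hGEN M C (Fin a) inferInstance c m hfin har' hcomm (U n) (hU n)
  choose e e1 e2 e3 e4 e5 using hG
  obtain ⟨W, hW⟩ : ∃ W : ∀ r : ℕ, Ultrafilter (Rw b r a → M), ∀ (r : ℕ)
      (P : (Rw b r a → M) → Prop), (∀ᶠ u in (W r : Filter (Rw b r a → M)), P u) ↔
        ∀ᶠ n in (V : Filter ℕ), ∀ᶠ v in (pw (U n) r : Filter (Fin r → Fin a → M)),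
          P (Sum.elim (w n) fun x => v x.1 x.2) :=
    ⟨fun r => Ultrafilter.bind V fun n => (pw (U n) r).map fun v =>
      Sum.elim (w n) fun x => v x.1 x.2, fun r P => Iff.rfl⟩
  refine ⟨a, k, b, κ, W, hκ, ?_, ?_, List.ofFn y, z, ?_, ?_⟩
  · -- free
    intro r
    refine ⟨?_, ?_⟩
    · rintro (i | ⟨j, i⟩) (i' | ⟨j', i'⟩) hij
      · rw [hW]
        filter_upwards [hw2 i i' (fun h => hij (by rw [h]))] with n hn
        exact Eventually.of_forall fun v => hn
      · rw [hW]
        refine Eventually.of_forall fun n => ?_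
        filter_upwards [pw_avoid (hU n) r j' i' (w n i)] with v hv
        exact hv.symm
      · rw [hW]
        refine Eventually.of_forall fun n => ?_
        exact pw_avoid (hU n) r j i (w n i')
      · rw [hW]
        refine Eventually.of_forall fun n => ?_
        exact pw_ne (hU n) r j j' i i' (fun h => hij (by rw [h]))
    · rintro (i | ⟨j, i⟩) y
      · rw [hW]
        filter_upwards [hw1 i y] with n hn
        exact Eventually.of_forall fun v => hn
      · rw [hW]
        exact Eventually.of_forall fun n => pw_avoid (hU n) r j i y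
  · -- compatibility
    intro r r' ρ hρ l
    have hval : ∀ n, ∃ v, v ∈ range c ∧
        (∀ᶠ w' in (pw (U n) r : Filter (Fin r → Fin a → M)),
          c (l.map (Sum.elim id (Sum.elim (w n) fun x => w' x.1 x.2))) = v) ∧
        ∀ᶠ w' in (pw (U n) r' : Filter (Fin r' → Fin a → M)),
          c (l.map (Sum.elim id ((Sum.elim (w n) fun x => w' x.1 x.2) ∘
            Sum.map id (Prod.map ρ id)))) = v := by
      intro n
      have h1 := pw_val (e1 n) (e3 n) r 0 (l.map fun x => match x with
        | Sum.inl y => Sum.inl y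
        | Sum.inr (Sum.inl i) => Sum.inl (w n i)
        | Sum.inr (Sum.inr x) => Sum.inr x)
      have h2 := pw_val (e1 n) (e3 n) r' 0 (l.map fun x => match x with
        | Sum.inl y => Sum.inl y
        | Sum.inr (Sum.inl i) => Sum.inl (w n i)
        | Sum.inr (Sum.inr x) => Sum.inr (ρ x.1, x.2))
      obtain ⟨f, hf1, hf2⟩ := ext_inj ρ hρ
      refine ⟨e n ((l.map fun x => match x with
        | Sum.inl y => Sum.inl y
        | Sum.inr (Sum.inl i) => Sum.inl (w n i)
        | Sum.inr (Sum.inr x) => Sum.inr x).map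
          (Sum.map id (Prod.map (fun j : Fin r => 0 + j.1) id))), ?_, ?_, ?_⟩
      · obtain ⟨w', hw'⟩ := h1.exists
        exact ⟨_, hw'⟩
      · filter_upwards [h1] with w' hw'
        rw [← hw', List.map_map]
        congr 2
        funext x
        rcases x with x | x | x <;> rfl
      · filter_upwards [h2] with w' hw'
        rw [← e4 n _ f hf1]
        rw [List.map_map, List.map_map] at hw'
        rw [List.map_map, List.map_map]
        refine Eq.trans (congrArg c (congrArg (fun g => l.map g) ?_)) (hw'.trans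
          (congrArg (e n) (congrArg (fun g => l.map g) ?_)))
        · funext x
          rcases x with x | x | x <;> rfl
        · funext x
          rcases x with x | x | x
          · rfl
          · rfl
          · obtain ⟨j, i⟩ := x
            simp [mapIdx, hf2]
    choose v hv0 hv1 hv2 using hval
    obtain ⟨v', -, hv'⟩ := exists_ae V v (hfin.subset (by rintro _ ⟨n, rfl⟩; exact hv0 n))
    rw [hW]
    filter_upwards [hv'] with n hn
    filter_upwards [hv1 n] with w₁ hw₁
    rw [hW]
    filter_upwards [hv'] with n' hn'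
    filter_upwards [hv2 n'] with w₂ hw₂
    rw [hw₁, hw₂, hn, hn']
  · -- own row
    rw [hW]
    have hy' : ∀ᶠ n in (V : Filter ℕ), ∀ j, X n j = Sum.elim (fun i => Sum.inl (κ i))
        (Sum.elim (fun i => Sum.inl (w n i)) Sum.inr) (y j) := by
      rw [eventually_all]
      exact hy
    filter_upwards [hy', hd, hL', hz] with n h1 h2 h3 h4
    rw [eventually_pw_succ]
    filter_upwards [hlam2 n (L n)] with u hu
    refine Eventually.of_forall fun v => ?_
    intro h5
    apply h3
    rw [← hu, h4, ← h5]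
    rw [hX n h2, List.map_ofFn, List.map_ofFn]
    congr 2
    funext j
    simp only [Function.comp_apply]
    rw [h1 j]
    rcases y j with x | x | x <;> rfl
  · -- another row
    rw [hW]
    have hy' : ∀ᶠ n in (V : Filter ℕ), ∀ j, X n j = Sum.elim (fun i => Sum.inl (κ i))
        (Sum.elim (fun i => Sum.inl (w n i)) Sum.inr) (y j) := by
      rw [eventually_all]
      exact hy
    filter_upwards [hy', hd, hz] with n h1 h2 h4
    refine Eventually.of_forall fun v => ?_
    rw [hW]
    filter_upwards [hlim2 (L n)] with n' hn'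
    rw [eventually_pw_succ]
    filter_upwards [hlam2 n' (L n)] with u hu
    refine Eventually.of_forall fun v' => ?_
    rw [← h4, ← hn', ← hu]
    rw [hX n h2, List.map_ofFn, List.map_ofFn]
    congr 2
    funext j
    simp only [Function.comp_apply]
    rw [h1 j]
    rcases y j with x | x | x <;> rfl

end Pool.Agent.H27.UV
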